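import Pool.Agent.U259.WD.Main

/-!
# The recursion for the total alternating sums
-/

set_option autoImplicit false
set_option linter.unusedSectionVars false

open scoped Classical BigOperators

noncomputable section

namespace Pool.Agent.U259.WQ

open Pool.Agent.Y63.NV
open Pool.Agent.Y63.KR
open Pool.Agent.Y63.AWC (IsIrreducibleCharacter)
open Pool.Agent.N20.KB
open Pool.Agent.N20.DI (Dg HasDef Kd fw)
open Pool.Agent.N85.WM (Wr Base shiftHom mem_base wrF wrF_inZ IsIdem BEq)
open Pool.Agent.U259.WP (Sep exists_sep NoDz noDz_of numDz_of Op1 eq_zero_of_pow dg_le)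
open Pool.Agent.U259.WD (Sd gf rhs series idem_wr noDz_wr)

section tot

variable {p : ℕ} [hp : Fact p.Prime] {F : Type} [Field F] (red : integralClosure ℤ ℂ →+* F)

/-- a large defect does not occur -/
theorem kd_big {J : Type} [Group J] [Finite J] {N D : ℕ} (hN : (Nat.card J).factorization p ≤ N)
    (h : N < D) (z : J → F) (c : F) : Kd p red D z c = 0 := by
  unfold Kd
  rw [Nat.card_eq_zero]
  left
  constructor
  rintro ⟨χ, hχ, ⟨n, -, hn⟩, -⟩
  omega

/-- all defects together -/
theorem knum_sum {J : Type} [Group J] [Finite J] {N : ℕ} (hN : (Nat.card J).factorization p ≤ N)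
    (z : J → F) (c : F) :
    (Knum red z c : ℤ) = ∑ D ∈ Finset.range (N + 1), (Kd p red D z c : ℤ) := by
  have _f : Finite {χ : J → ℂ // IsIrreducibleCharacter χ ∧ centralValue red χ z = c} :=
    ((Pool.Agent.Y914.NV.irr ℂ J).1.subset fun _ h => h.1).to_subtype
  have _g : Fintype {χ : J → ℂ // IsIrreducibleCharacter χ ∧ centralValue red χ z = c} :=
    Fintype.ofFinite _
  have hd : ∀ χ : {χ : J → ℂ // IsIrreducibleCharacter χ ∧ centralValue red χ z = c},
      ∃ D ∈ Finset.range (N + 1), HasDef p D χ.1 := by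
    intro χ
    obtain ⟨n, h1, -, h2⟩ := dg_le (p := p) χ.2.1
    exact ⟨(Nat.card J).factorization p - n.factorization p, Finset.mem_range.2 (by omega),
      n, h1, by omega⟩
  choose f hf hf2 using hd
  have huniq : ∀ (χ : J → ℂ) (D D' : ℕ), HasDef p D χ → HasDef p D' χ → D = D' := by
    rintro χ D D' ⟨n, h1, h2⟩ ⟨n', h1', h2'⟩
    have h3 : n = n' := by
      rw [h1] at h1'
      exact_mod_cast h1'
    subst h3
    omega
  have h1 : Nat.card {χ : J → ℂ // IsIrreducibleCharacter χ ∧ centralValue red χ z = c} =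
      ∑ D ∈ Finset.range (N + 1), (Finset.univ.filter fun χ :
        {χ : J → ℂ // IsIrreducibleCharacter χ ∧ centralValue red χ z = c} => f χ = D).card := by
    rw [Nat.card_eq_fintype_card, ← Finset.card_univ]
    exact Finset.card_eq_sum_card_fiberwise fun χ _ => hf χ
  have h2 : ∀ D, (Finset.univ.filter fun χ :
        {χ : J → ℂ // IsIrreducibleCharacter χ ∧ centralValue red χ z = c} => f χ = D).card =
      Kd p red D z c := by
    intro D
    unfold Kd
    rw [← Fintype.card_subtype, ← Nat.card_eq_fintype_card]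
    exact Nat.card_congr
      { toFun := fun χ => ⟨χ.1.1, χ.1.2.1, by
            have h3 := hf2 χ.1
            rw [χ.2] at h3
            exact h3, χ.1.2.2⟩
        invFun := fun χ => ⟨⟨χ.1, χ.2.1, χ.2.2.2⟩,
          huniq χ.1 _ _ (hf2 ⟨χ.1, χ.2.1, χ.2.2.2⟩) χ.2.2.1⟩
        left_inv := fun χ => rfl
        right_inv := fun χ => rfl }
  unfold Knum
  rw [h1]
  push_cast
  exact Finset.sum_congr rfl fun D _ => by rw [h2]

theorem sd_big {G : Type} [Group G] [Finite G] {N D : ℕ} (hN : (Nat.card G).factorization p ≤ N)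
    (h : N < D) (z : G → F) (c : F) : Sd p red D G z c = 0 := by
  unfold Pool.Agent.U259.WD.Sd alternatingSum
  refine finsum_eq_zero_of_forall_eq_zero fun σ => ?_
  have h1 : (Nat.card (chainStabilizer σ.out.1)).factorization p ≤ N :=
    ((Nat.factorization_le_iff_dvd Nat.card_pos.ne' Nat.card_pos.ne').2
      (Subgroup.card_subgroup_dvd_card _) p).trans hN
  have h2 := kd_big (p := p) red h1 h (fun x : chainStabilizer σ.out.1 => z x) c
  change (-1 : ℤ) ^ _ * ((Kd p red D (fun x : chainStabilizer σ.out.1 => z x) c : ℕ) : ℤ) = 0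
  rw [h2, Nat.cast_zero, mul_zero]

theorem aB_sum {G : Type} [Group G] [Finite G] {N : ℕ} (hN : (Nat.card G).factorization p ≤ N)
    (z : G → F) (c : F) : aB red p G z c = ∑ D ∈ Finset.range (N + 1), Sd p red D G z c := by
  have _i : Fintype (Quotient (chainSetoid p G)) := Fintype.ofFinite _
  unfold Pool.Agent.N20.KB.aB Pool.Agent.U259.WD.Sd alternatingSum
  rw [finsum_eq_sum_of_fintype]
  simp only [finsum_eq_sum_of_fintype]
  rw [Finset.sum_comm]
  refine Finset.sum_congr rfl fun σ _ => ?_
  have h1 : (Nat.card (chainStabilizer σ.out.1)).factorization p ≤ N :=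
    ((Nat.factorization_le_iff_dvd Nat.card_pos.ne' Nat.card_pos.ne').2
      (Subgroup.card_subgroup_dvd_card _) p).trans hN
  have h2 := knum_sum (p := p) red h1 (fun x : chainStabilizer σ.out.1 => z x) c
  rw [h2, Finset.mul_sum]

/-- the generating polynomial -/
def gp (p : ℕ) {F : Type} [Field F] (red : integralClosure ℤ ℂ →+* F) (G : Type) [Group G]
    (e : G → F) : Polynomial ℤ :=
  ∑ D ∈ Finset.range ((Nat.card G).factorization p + 1), Polynomial.C (Sd p red D G e 1) *
    Polynomial.X ^ D

theorem gp_coe {G : Type} [Group G] [Finite G] (e : G → F) :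
    (gp p red G e : PowerSeries ℤ) = gf p red G e := by
  ext D
  rw [Polynomial.coeff_coe]
  unfold gp Pool.Agent.U259.WD.gf
  rw [Polynomial.finsetSum_coeff, PowerSeries.coeff_mk]
  simp only [Polynomial.coeff_C_mul, Polynomial.coeff_X_pow]
  by_cases h : D ∈ Finset.range ((Nat.card G).factorization p + 1)
  · rw [Finset.sum_eq_single D]
    · simp
    · intro b _ hb
      rw [if_neg (Ne.symm hb), mul_zero]
    · intro h2
      exact absurd h h2
  · rw [Finset.sum_eq_zero]
    · rw [Finset.mem_range, not_lt] at h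
      exact (sd_big (p := p) red le_rfl (by omega) e 1).symm
    · intro b hb
      rw [if_neg, mul_zero]
      rintro rfl
      exact h hb

theorem gp_eval {G : Type} [Group G] [Finite G] (e : G → F) :
    (gp p red G e).eval 1 = aB red p G e 1 := by
  rw [aB_sum (p := p) red le_rfl e 1]
  unfold gp
  rw [Polynomial.eval_finsetSum]
  refine Finset.sum_congr rfl fun D _ => ?_
  simp

theorem coe_dil {q : ℕ} (hq : 0 < q) (P : Polynomial ℤ) :
    ((Polynomial.expand ℤ q P : Polynomial ℤ) : PowerSeries ℤ) =
      PowerSeries.mk (fun d => if q ∣ d then PowerSeries.coeff (d / q) (P : PowerSeries ℤ) else 0) := by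
  ext d
  rw [Polynomial.coeff_coe, Polynomial.coeff_expand hq, PowerSeries.coeff_mk]
  split_ifs
  · rw [Polynomial.coeff_coe]
  · rfl

end tot

section rec'

variable {p q : ℕ} [hp : Fact p.Prime] [hq : Fact q.Prime] {F : Type} [Field F] [IsAlgClosed F]
  [CharP F p] (red : integralClosure ℤ ℂ →+* F) {G : Type} [Group G] [Finite G]

/-- **the recursion for the total sums** -/
theorem tot_rec {e : G → F} (he : IsIdem e) :
    (q : ℤ) * aB red p (Wr q G) (wrF q e) 1 = aB red p G e 1 ^ q +
      (if q = p then -1 else (q : ℤ) ^ 2 - 1) * aB red p G e 1 := by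
  have : NeZero q := ⟨hq.out.ne_zero⟩
  have h := series (p := p) (q := q) red he
  rw [← gp_coe, ← gp_coe] at h
  unfold rhs at h
  by_cases hqp : q = p
  · subst hqp
    rw [if_pos rfl, ← coe_dil hq.out.pos] at h
    have h1 : Polynomial.C (q : ℤ) * gp q red (Wr q G) (wrF q e) = gp q red G e ^ q +
        ((Polynomial.C ((q : ℤ) ^ 2) * Polynomial.X - 1) *
          Polynomial.expand ℤ q (gp q red G e) -
          Polynomial.C ((q : ℤ) ^ 2) * Polynomial.X * gp q red G e) := by
      apply Polynomial.coe_injective ℤ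
      push_cast
      rw [← h]
    have h2 := congrArg (Polynomial.eval 1) h1
    simp only [Polynomial.eval_mul, Polynomial.eval_add, Polynomial.eval_sub, Polynomial.eval_pow,
      Polynomial.eval_C, Polynomial.eval_X, Polynomial.eval_one, Polynomial.expand_eval,
      one_pow, gp_eval] at h2
    rw [if_pos rfl, h2]
    ring
  · rw [if_neg hqp, ← coe_dil hq.out.pos] at h
    have h1 : Polynomial.C (q : ℤ) * gp p red (Wr q G) (wrF q e) = gp p red G e ^ q +
        Polynomial.C ((q : ℤ) ^ 2 - 1) * Polynomial.expand ℤ q (gp p red G e) := by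
      apply Polynomial.coe_injective ℤ
      push_cast
      rw [← h]
    have h2 := congrArg (Polynomial.eval 1) h1
    simp only [Polynomial.eval_mul, Polynomial.eval_add, Polynomial.eval_pow,
      Polynomial.eval_C, Polynomial.expand_eval, one_pow, gp_eval] at h2
    rw [if_neg hqp, h2]

end rec'

end Pool.Agent.U259.WQ
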