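import Pool.Agent.U259.WQ.Tot
import Pool.Agent.R674.KB.Main
import Pool.Agent.N85.WM.Fin

/-!
# The theorem of Knörr and Robinson modulo an integer
-/

set_option autoImplicit false
set_option linter.unusedSectionVars false

open scoped Classical BigOperators

noncomputable section

namespace Pool.Agent.U259.WQ

open Pool.Agent.Y63.NV
open Pool.Agent.Y63.KR
open Pool.Agent.Y63.AWC (IsIrreducibleCharacter)
open Pool.Agent.N20.KB
open Pool.Agent.N85.WM (Wr wrF wrF_inZ IsIdem BEq YS cvS lsum_top wsum_top lnum_top numIrrBlock_eq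
  numWts_eq numWts blkOf blkOf_block cvS_block cnt_mod IsW wcv)
open Pool.Agent.N85.WM.Ww (wsum_tot tot_cm isW_cm_iff wcv_cm cm tot)
open Pool.Agent.R674.KB (kdimh kfilt kfin')

/-- the number of simple modules minus the number of classes of weights, with the value `c` at `z` -/
def dl (p : ℕ) {F : Type} [Field F] (red : integralClosure ℤ ℂ →+* F) {H : Type} [Group H]
    (z : H → F) (c : F) : ℤ :=
  (Lnum (⊤ : Subgroup H) ⊤ z c : ℤ) - Nat.card {y : YS p H // cvS red y z = c}

section iso

variable {p : ℕ} {F : Type} [Field F] (red : integralClosure ℤ ℂ →+* F) {H H' : Type} [Group H]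
  [Group H'] [Finite H] [Finite H']

theorem dl_eq {z : H → F} (hz : IsClassFun z) (c : F) : (Nat.card H : ℤ) * dl p red z c =
    Lsum (⊤ : Subgroup H) ⊤ z c - Wsum p red (⊤ : Subgroup H) ⊤ z c := by
  unfold dl
  rw [lsum_top, wsum_top red hz]
  ring

theorem lnum_iso (φ : H ≃* H') (z : H' → F) (c : F) :
    Lnum (⊤ : Subgroup H) ⊤ (fun x => z (φ x)) c = Lnum (⊤ : Subgroup H') ⊤ z c := by
  let e : (⊤ : Subgroup H) ≃* (⊤ : Subgroup H') :=
    (Subgroup.topEquiv.trans φ).trans Subgroup.topEquiv.symm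
  refine Pool.Agent.Y210.NV2.lnum_congr _ _ _ _ _ _ c e (fun x => rfl) fun ψ => ?_
  constructor
  · intro h a _ x y hxy
    refine h (φ a) trivial (e x) (e y) ?_
    change φ y = φ a * φ x * (φ a)⁻¹
    rw [hxy]
    simp
  · intro h a _ x y hxy
    have h1 := h (φ.symm a) trivial (e.symm x) (e.symm y) (by
      change φ.symm y = φ.symm a * φ.symm x * (φ.symm a)⁻¹
      rw [hxy]
      simp)
    simpa using h1

theorem wsum_iso (φ : H ≃* H') {z : H' → F} (hz : IsClassFun z) (c : F) :
    Wsum p red (⊤ : Subgroup H) ⊤ (fun x => z (φ x)) c =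
      Wsum p red (⊤ : Subgroup H') ⊤ z c := by
  rw [wsum_tot, wsum_tot]
  refine tot_cm φ fun Q χ => ?_
  constructor
  · rintro ⟨h1, h2⟩
    have h3 := (isW_cm_iff φ).1 h1
    exact ⟨h3, (wcv_cm red φ h3 hz).symm.trans h2⟩
  · rintro ⟨h1, h2⟩
    exact ⟨(isW_cm_iff φ).2 h1, (wcv_cm red φ h1 hz).trans h2⟩

theorem dl_iso (φ : H ≃* H') {z : H' → F} (hz : IsClassFun z) (c : F) :
    dl p red (fun x => z (φ x)) c = dl p red z c := by
  have hz' : IsClassFun (fun x : H => z (φ x)) := fun g x => by
    simp only [map_mul, map_inv]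
    exact hz _ _
  have h1 := dl_eq (p := p) red hz' c
  have h2 := dl_eq (p := p) red hz c
  rw [wsum_iso red φ hz, lsum_top, lnum_iso, Nat.card_congr φ.toEquiv] at h1
  rw [lsum_top, ← h1] at h2
  exact (mul_left_cancel₀ (by exact_mod_cast Nat.card_pos.ne') h2).symm

theorem conjInv_dl {z : H → F} (hz : IsClassFun z) (c : F) (g : H) (K : Subgroup H) :
    dl p red (fun x : conjSub g K => z x) c = dl p red (fun x : K => z x) c := by
  let e : K ≃* conjSub g K := K.equivMapOfInjective _ (MulAut.conj g).injective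
  have h := dl_iso (p := p) red e (z := fun x : conjSub g K => z x) (fun a x => hz a x) c
  have h2 : (fun x : K => z (e x)) = fun x : K => z x := by
    funext x
    exact hz g x
  rw [← h, h2]

end iso

section ident

variable {p : ℕ} [hp : Fact p.Prime] {F : Type} [Field F] [IsAlgClosed F] [CharP F p]
  (red : integralClosure ℤ ℂ →+* F) {Γ : Type} [Group Γ] [Finite Γ]

/-- **the alternating sum of the differences** -/
theorem ident {z : Γ → F} (hz : IsClassFun z) (c : F) :
    aB red p Γ z c - Nw p red (⊥ : Subgroup Γ) z c =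
      alternatingSum p Γ (fun H => dl p red (fun x : H => z x) c) := by
  have h1 := ksum_sub kdimh kfilt red hz c
  have h2 : (Nat.card Γ : ℤ) * alternatingSum p Γ (fun H => dl p red (fun x : H => z x) c) =
      ∑ᶠ σ : {σ : Set (Subgroup Γ) // IsPChain p σ}, (-1) ^ σ.1.ncard *
        ((Nat.card (chainStabilizer σ.1) : ℤ) *
          dl p red (fun x : chainStabilizer σ.1 => z x) c) := by
    rw [Pool.Agent.Q90.WR.card_mul_alternatingSum' (p := p)
      (fun H : Subgroup Γ => dl p red (fun x : H => z x) c) (conjInv_dl red hz c)]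
    rw [finsum_eq_sum_of_fintype]
  have h3 := aa_aB (p := p) red hz c
  unfold Pool.Agent.N20.KB.AA at h3
  rw [h3] at h1
  have h4 : ∀ σ : {σ : Set (Subgroup Γ) // IsPChain p σ}, (-1 : ℤ) ^ σ.1.ncard *
      (Lsum ⊤ (chainStabilizer σ.1) (cut z (chainStabilizer σ.1)) c -
        Wsum p red ⊤ (chainStabilizer σ.1) z c) =
      (-1) ^ σ.1.ncard * ((Nat.card (chainStabilizer σ.1) : ℤ) *
        dl p red (fun x : chainStabilizer σ.1 => z x) c) := by
    intro σ
    congr 1
    rw [dl_eq red (z := fun x : chainStabilizer σ.1 => z x) (fun a x => hz a x)]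
    rw [parts.trl F Γ ⊤ (chainStabilizer σ.1) (cut z (chainStabilizer σ.1)) c (top_sup_eq _),
      Pool.Agent.Y624.NV.trn p F red Γ ⊤ (chainStabilizer σ.1) z c (top_sup_eq _)
        (fun h _ x => hz h x), Subgroup.top_subgroupOf]
    have e1 : (fun x : chainStabilizer σ.1 => cut z (chainStabilizer σ.1) x) =
        fun x : chainStabilizer σ.1 => z x := by
      funext x
      unfold cut
      rw [if_pos x.2]
    rw [e1]
  rw [finsum_congr h4] at h1
  have h5 : (Nat.card Γ : ℤ) * (aB red p Γ z c - Nw p red (⊥ : Subgroup Γ) z c) =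
      (Nat.card Γ : ℤ) * alternatingSum p Γ (fun H => dl p red (fun x : H => z x) c) := by
    rw [h2, mul_sub]
    exact h1
  exact mul_left_cancel₀ (by exact_mod_cast Nat.card_pos.ne') h5

/-- congruences for blocks and for class functions -/
theorem dl_mod {m : ℕ} (h : ∀ B : (Γ → F) → F, IsBlock B →
    numIrrBlock B ≡ numWts p red B [MOD m]) {z : Γ → F} (hz : IsClassFun z) (c : F) :
    (m : ℤ) ∣ dl p red z c := by
  have h1 := cnt_mod (fun φ : {φ : Γ → F // IsIrrTrace φ} => blkOf φ)
      (fun y : YS p Γ => cvS red y) blkOf_block (cvS_block red) m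
      (fun B' hB' => by
        rw [← numIrrBlock_eq, ← numWts_eq]
        exact h B' hB') hz c
  unfold dl
  rw [lnum_top hz]
  have h2 := Nat.modEq_iff_dvd.1 h1
  rw [← dvd_neg, neg_sub] at h2
  exact h2

/-- congruences for the chain stabilisers give a congruence for the alternating sum -/
theorem aB_mod {m : ℕ} (h : ∀ σ : Set (Subgroup Γ), IsPChain p σ →
    ∀ B : (chainStabilizer σ → F) → F, IsBlock B → numIrrBlock B ≡ numWts p red B [MOD m])
    {z : Γ → F} (hz : IsClassFun z) (c : F) :
    (m : ℤ) ∣ aB red p Γ z c - Nw p red (⊥ : Subgroup Γ) z c := by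
  rw [ident red hz c]
  have _i : Fintype (Quotient (chainSetoid p Γ)) := Fintype.ofFinite _
  unfold alternatingSum
  rw [finsum_eq_sum_of_fintype]
  refine Finset.dvd_sum fun q _ => Dvd.dvd.mul_left ?_ _
  exact dl_mod (p := p) red (h q.out.1 q.out.2)
    (z := fun x : chainStabilizer q.out.1 => z x) (fun a x => hz a x) c

end ident

end Pool.Agent.U259.WQ
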