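import Pool.Agent.U259.WQ.Cong
import Pool.Agent.Y63.NV.PeL

/-!
# Congruences modulo an arbitrary prime imply the blockwise weight conjecture
-/

set_option autoImplicit false
set_option linter.unusedSectionVars false

open scoped Classical BigOperators

noncomputable section

namespace Pool.Agent.U259.WQ

open Pool.Agent.Y63.NV
open Pool.Agent.Y63.KR
open Pool.Agent.Y63.AWC (IsIrreducibleCharacter)
open Pool.Agent.N20.KB
open Pool.Agent.N85.WM (Wr wrF wrF_inZ IsIdem BEq numWts)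
open Pool.Agent.R674.KB (kdimh kfilt kfin' KRQ krq_iff)
open Pool.Agent.U259.WP (SB SB_sep SB_zero dvd_aB Sep exists_sep NoDz noDz_of numDz_of Op1
  eq_zero_of_pow pow_dvd_step)
open Pool.Agent.U259.WD (idem_wr noDz_wr)

theorem step_arith {q k : ℕ} (hq : q.Prime) (hk : 1 ≤ k) {a x y : ℤ}
    (ha : a = -1 ∨ a = (q : ℤ) ^ 2 - 1) (h : (q : ℤ) * y = x ^ q + a * x)
    (hx : (q : ℤ) ^ k ∣ x) (hy : (q : ℤ) ^ k ∣ y) : (q : ℤ) ^ (k + 1) ∣ x := by
  rcases ha with rfl | rfl
  · exact pow_dvd_step hq hk (by rw [h]; ring) hx hy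
  · have h1 : (q : ℤ) ^ (k + 1) ∣ x ^ q := by
      have h2 : (q : ℤ) ^ (k * q) ∣ x ^ q := by
        rw [pow_mul]
        exact pow_dvd_pow_of_dvd hx q
      refine (pow_dvd_pow _ ?_).trans h2
      have := hq.two_le
      nlinarith
    have h2 : (q : ℤ) ^ (k + 1) ∣ (q : ℤ) * y := by
      rw [pow_succ']
      exact mul_dvd_mul_left _ hy
    have h3 : (q : ℤ) ^ (k + 1) ∣ (q : ℤ) ^ 2 * x := by
      rw [pow_succ', sq, mul_assoc]
      exact mul_dvd_mul_left _ (Dvd.dvd.mul_left hx _)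
    have h4 : x = x ^ q + (q : ℤ) ^ 2 * x - (q : ℤ) * y := by rw [h]; ring
    rw [h4]
    exact dvd_sub (dvd_add h1 h3) h2

variable {p : ℕ} [hp : Fact p.Prime] {F : Type} [Field F] [IsAlgClosed F] [CharP F p]
  (red : integralClosure ℤ ℂ →+* F)

/-- divisibility of the alternating sums of the blocks of positive defect -/
def DivS (p : ℕ) {F : Type} [Field F] (red : integralClosure ℤ ℂ →+* F) (m : ℤ) (G : Type)
    [Group G] : Prop :=
  ∀ B : (G → F) → F, IsBlock B → numDzBlock p red B = 0 → m ∣ SB p red B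

theorem divS_step (q : ℕ) [hq : Fact q.Prime] {k : ℕ} (hk : 1 ≤ k) (G : Type) [Group G] [Finite G]
    (h1 : DivS p red ((q : ℤ) ^ k) G) (h2 : DivS p red ((q : ℤ) ^ k) (Wr q G)) :
    DivS p red ((q : ℤ) ^ (k + 1)) G := by
  have : NeZero q := ⟨hq.out.ne_zero⟩
  intro B hB hz
  obtain ⟨e, he⟩ := exists_sep hB
  have hno := noDz_of red he hz
  have hw := noDz_wr (q := q) red he.1 hno
  have h3 : ((q ^ k : ℕ) : ℤ) ∣ aB red p (Wr q G) (wrF q e) 1 :=
    dvd_aB red (wrF_inZ q G he.1.cl).conj 1 _ fun B' hB' h4 => by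
      have h5 := h2 B' hB' (numDz_of red (wrF_inZ q G he.1.cl).conj h4 hw)
      exact_mod_cast h5
  have h6 := h1 B hB hz
  rw [SB_sep red he] at h6 ⊢
  refine step_arith hq.out hk (a := if q = p then -1 else (q : ℤ) ^ 2 - 1) ?_
    (tot_rec (p := p) (q := q) red he.1) h6 (by exact_mod_cast h3)
  split_ifs
  · exact Or.inl rfl
  · exact Or.inr rfl

theorem sb_class (q : ℕ) [hq : Fact q.Prime] (X : ∀ (G : Type) [Group G], Prop)
    (hX : ∀ (G : Type) [Group G] [Finite G], X G → X (Wr q G))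
    (h : ∀ (G : Type) [Group G] [Finite G], X G → DivS p red (q : ℤ) G)
    (G : Type) [Group G] [Finite G] (hG : X G) (B : (G → F) → F) (hB : IsBlock B)
    (hz : numDzBlock p red B = 0) : SB p red B = 0 := by
  have key : ∀ k : ℕ, ∀ (G : Type) [Group G] [Finite G], X G →
      DivS p red ((q : ℤ) ^ (k + 1)) G := by
    intro k
    induction k with
    | zero =>
      intro G _ _ hG B hB hz
      rw [zero_add, pow_one]
      exact h G hG B hB hz
    | succ k ih =>
      intro G _ _ hG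
      exact divS_step red q (Nat.succ_le_succ (Nat.zero_le k)) G (ih G hG) (ih (Wr q G) (hX G hG))
  refine eq_zero_of_pow hq.out fun k => ?_
  exact (pow_dvd_pow _ (Nat.le_succ k)).trans (key k G hG B hB hz)

theorem nw_zero {Γ : Type} [Group Γ] [Finite Γ] {e : Γ → F} (h : NoDz p red e) :
    Nw p red (⊥ : Subgroup Γ) e 1 = 0 := by
  unfold Nw
  rw [Nat.card_eq_zero]
  left
  constructor
  rintro ⟨χ, hχ, hv⟩
  obtain ⟨h3, h4⟩ := Pool.Agent.N237.DI.wt_iff.1 hχ
  exact h χ h3 h4 hv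

theorem sb_mod {Γ : Type} [Group Γ] [Finite Γ] {m : ℕ}
    (h : ∀ σ : Set (Subgroup Γ), IsPChain p σ → ∀ B : (chainStabilizer σ → F) → F, IsBlock B →
      numIrrBlock B ≡ numWts p red B [MOD m])
    {B : (Γ → F) → F} (hB : IsBlock B) (hz : numDzBlock p red B = 0) :
    (m : ℤ) ∣ SB p red B := by
  obtain ⟨e, he⟩ := exists_sep hB
  have h1 := aB_mod (p := p) red h he.1.cl 1
  rw [nw_zero red (noDz_of red he hz), Nat.cast_zero, sub_zero, ← SB_sep red he] at h1
  exact h1

/-- the weight conjecture for a class from the alternating sum form -/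
theorem navarro_top (X : ∀ (H : Type) [Group H], Prop) (hX : Closed p X)
    (hk : ∀ (H : Type) [Group H] [Finite H], X H → Reduced p H → KRB p red H)
    (Γ : Type) [Group Γ] [Finite Γ] (hΓ : X Γ) : Navarro p red (⊤ : Subgroup Γ) := by
  refine bawc_reduction' red X hX ?_ (Nat.card Γ) Γ le_rfl
    ⟨⊤, inferInstance, hX.iso _ _ hΓ ⟨Subgroup.topEquiv.symm⟩, pgroup_top p Γ⟩
  intro H _ _ hH hR hsmall
  refine bawc_of_krb kdimh kfilt kfin' red (fun σ hσ hne => ?_) (hk H hH hR)
  have hXP : XP p X (chainStabilizer σ) :=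
    (xp_closed p X hX).sub H ⟨⊤, inferInstance,
      hX.iso _ _ hH ⟨Subgroup.topEquiv.symm⟩, pgroup_top p H⟩ _
  exact hsmall (chainStabilizer σ) hXP (stab_lt hR.radical hσ hne)

/-- **Congruences modulo one prime imply the blockwise weight conjecture.** -/
theorem bawc_of_mod (q : ℕ) [hq : Fact q.Prime] (X : ∀ (H : Type) [Group H], Prop)
    (hX : Closed p X) (hwr : ∀ (G : Type) [Group G] [Finite G], X G → X (Wr q G))
    (h : ∀ (G : Type) [Group G] [Finite G], X G → ∀ B : (G → F) → F, IsBlock B →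
      numIrrBlock B ≡ numWts p red B [MOD q])
    (Γ : Type) [Group Γ] [Finite Γ] (hΓ : X Γ) : BAWC p red Γ := by
  have h1 : ∀ (G : Type) [Group G] [Finite G], X G → DivS p red (q : ℤ) G := by
    intro G _ _ hG B hB hz
    exact sb_mod red (fun σ _ B' hB' => h (chainStabilizer σ) (hX.sub G hG _) B' hB') hB hz
  rw [bawc_iff]
  refine navarro_top red X hX (fun H _ _ hH _ => ?_) Γ hΓ
  rw [← krq_iff]
  intro B hB hno
  refine sb_class red q X hwr h1 H hH B hB ?_
  unfold numDzBlock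
  rw [Nat.card_eq_zero]
  left
  constructor
  rintro ⟨χ, hχ, hχB⟩
  exact hno χ hχ hχB

end Pool.Agent.U259.WQ
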