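import Pool.Agent.U259.WQ.Main

/-!
# The same without blocks
-/

set_option autoImplicit false
set_option linter.unusedSectionVars false

open scoped Classical BigOperators

noncomputable section

namespace Pool.Agent.U259.WQ

open Pool.Agent.Y63.NV
open Pool.Agent.Y63.KR
open Pool.Agent.Y63.AWC (IsIrreducibleCharacter numRegularClasses numWeights)
open Pool.Agent.N20.KB
open Pool.Agent.N20.DI (Dg HasDef Kd fw)
open Pool.Agent.N85.WM (Wr wrF wrF_inZ IsIdem BEq numWts uno uno_class uno_idem wrF_uno YS cvS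
  wsum_top)
open Pool.Agent.U259.WP (eq_zero_of_pow)
open Pool.Agent.U259.WD (Sd gf rhs series series_coeff kd_zero)

theorem diff_arith {q k : ℕ} (_hq : q.Prime) (hk : 1 ≤ k) {a x y x' y' : ℤ}
    (ha : a = -1 ∨ a = (q : ℤ) ^ 2 - 1) (hx : (q : ℤ) * x' = x ^ q + a * x)
    (hy : (q : ℤ) * y' = y ^ q + a * y)
    (h1 : (q : ℤ) ^ k ∣ x - y) (h2 : (q : ℤ) ^ k ∣ x' - y') : (q : ℤ) ^ (k + 1) ∣ x - y := by
  have h3 : (q : ℤ) ^ (k + 1) ∣ x ^ q - y ^ q := by
    have e : x ^ q - y ^ q = (∑ i ∈ Finset.range q, x ^ i * y ^ (q - 1 - i)) * (x - y) :=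
      (Commute.all x y).geom_sum₂_mul q |>.symm
    rw [e, pow_succ']
    refine mul_dvd_mul ?_ h1
    have hpl : (q : ℤ) ∣ x - y := dvd_trans (dvd_pow_self _ (by omega)) h1
    have : ∀ i ∈ Finset.range q, x ^ i * y ^ (q - 1 - i) ≡ y ^ (q - 1) [ZMOD q] := by
      intro i hi
      rw [Finset.mem_range] at hi
      have h4 : x ≡ y [ZMOD q] := (Int.modEq_iff_dvd.mpr hpl).symm
      have h5 : y ^ (q - 1) = y ^ i * y ^ (q - 1 - i) := by
        rw [← pow_add]
        congr 1
        omega
      rw [h5]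
      exact (h4.pow i).mul_right _
    have h6 : ∑ i ∈ Finset.range q, x ^ i * y ^ (q - 1 - i) ≡
        ∑ i ∈ Finset.range q, y ^ (q - 1) [ZMOD q] := by
      rw [← ZMod.intCast_eq_intCast_iff, Int.cast_sum, Int.cast_sum]
      refine Finset.sum_congr rfl fun i hi => ?_
      rw [ZMod.intCast_eq_intCast_iff]
      exact this i hi
    rw [Finset.sum_const, Finset.card_range, nsmul_eq_mul] at h6
    exact (Int.ModEq.dvd_iff h6).mpr (dvd_mul_right _ _)
  have h4 : (q : ℤ) ^ (k + 1) ∣ (q : ℤ) * (x' - y') := by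
    rw [pow_succ']
    exact mul_dvd_mul_left _ h2
  have h5 : (q : ℤ) ^ (k + 1) ∣ (a + 1) * (x - y) := by
    rcases ha with rfl | rfl
    · simp
    · rw [sub_add_cancel, pow_succ', sq, mul_assoc]
      exact mul_dvd_mul_left _ (Dvd.dvd.mul_left h1 _)
  have h6 : x - y = (x ^ q - y ^ q) + (a + 1) * (x - y) - (q : ℤ) * (x' - y') := by
    linear_combination hx - hy
  rw [h6]
  exact dvd_sub (dvd_add h3 h5) h4

variable {p : ℕ} [hp : Fact p.Prime] {F : Type} [Field F] [IsAlgClosed F] [CharP F p]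
  (red : integralClosure ℤ ℂ →+* F)

theorem uno_single (G : Type) [Group G] : uno F G = Pi.single 1 1 := by
  funext x
  unfold uno
  by_cases hx : x = 1
  · subst hx
    rw [if_pos rfl, Pi.single_eq_same]
  · rw [if_neg hx, Pi.single_eq_of_ne hx]

theorem dl_uno (H : Type) [Group H] [Finite H] :
    dl p red (uno F H) 1 = (numRegularClasses p H : ℤ) - numWeights p H := by
  have h1 : Lnum (⊤ : Subgroup H) ⊤ (uno F H) 1 = numRegularClasses p H := by
    rw [uno_single, lreg' p F H ⊤ (pgroup_top p H), invReg_top]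
  have h2 : (Nat.card {y : YS p H // cvS red y (uno F H) = 1} : ℤ) = numWeights p H := by
    have h3 := wsum_top (p := p) red (uno_class (F := F) (G := H)) 1
    rw [uno_single, card_mul_w p red (⊤ : Subgroup H), Subgroup.card_top,
      Pool.Agent.Y63.AWC.numWeights_congr (p := p) (Subgroup.topEquiv (G := H))] at h3
    rw [uno_single]
    exact (mul_left_cancel₀ (by exact_mod_cast Nat.card_pos.ne') h3).symm
  unfold dl
  rw [h1, h2]

theorem uno_sub {Γ : Type} [Group Γ] (H : Subgroup Γ) :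
    (fun x : H => uno F Γ x) = uno F H := by
  funext x
  unfold uno
  by_cases hx : x = 1
  · subst hx
    simp
  · rw [if_neg hx]
    exact if_neg (fun h => hx (Subtype.ext h))

/-- the characters of defect zero -/
theorem sd0 {Γ : Type} [Group Γ] [Finite Γ] {z : Γ → F} (hz : IsClassFun z) (c : F) :
    Sd p red 0 Γ z c = Nw p red (⊥ : Subgroup Γ) z c := by
  unfold Pool.Agent.U259.WD.Sd
  rw [alternatingSum_single]
  · have h1 := Pool.Agent.N20.DI.kd_iso (p := p) red (Subgroup.topEquiv (G := Γ)) (f := z)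
      hz c 0
    have h2 : (fun x : (⊤ : Subgroup Γ) => z x) =
        fun x : (⊤ : Subgroup Γ) => z (Subgroup.topEquiv x) := rfl
    rw [h2, h1]
    unfold Pool.Agent.N20.DI.Kd Nw
    congr 1
    refine Nat.card_congr (Equiv.subtypeEquivRight fun χ => ?_)
    rw [Pool.Agent.N237.DI.wt_iff, and_assoc]
    rfl
  · intro σ hσ hne
    obtain ⟨P, hP, hmin⟩ : ∃ P ∈ σ, ∀ Q ∈ σ, P ≤ Q := by
      obtain ⟨m, hm1, hm2⟩ := (Set.toFinite σ).exists_minimal hne
      refine ⟨m, hm1, fun Q hQ => ?_⟩
      rcases hσ.chain.total hm1 hQ with h3 | h3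
      · exact h3
      · exact hm2 hQ h3
    have hle : P ≤ chainStabilizer σ := by
      intro x hx
      rw [mem_chainStabilizer]
      intro Q hQ
      rw [conjSub_eq_iff]
      exact Subgroup.le_normalizer (hmin Q hQ hx)
    have hn : (P.subgroupOf (chainStabilizer σ)).Normal := by
      constructor
      intro x hx y
      rw [Subgroup.mem_subgroupOf] at hx ⊢
      have h1 : conjSub (y : Γ) P = P := mem_chainStabilizer.mp y.2 P hP
      have h2 := conj_mem_conjSub (g := (y : Γ)) hx
      rw [h1] at h2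
      exact h2
    have h4 := kd_zero (p := p) red hn (hσ.isPGroup P hP).comap_subtype (by
      intro h3
      apply hσ.ne_bot P hP
      rw [Subgroup.subgroupOf_eq_bot] at h3
      exact eq_bot_iff.2 fun x hx => h3.le_bot ⟨hx, hle hx⟩)
      (fun x : chainStabilizer σ => z x) c
    change ((Kd p red 0 (fun x : chainStabilizer σ => z x) c : ℕ) : ℤ) = 0
    rw [h4, Nat.cast_zero]

/-- the recursion for the characters of defect zero -/
theorem sd0_rec (q : ℕ) [hq : Fact q.Prime] {G : Type} [Group G] [Finite G] {e : G → F}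
    (he : IsIdem e) :
    (q : ℤ) * Sd p red 0 (Wr q G) (wrF q e) 1 = Sd p red 0 G e 1 ^ q +
      (if q = p then -1 else (q : ℤ) ^ 2 - 1) * Sd p red 0 G e 1 := by
  have h := series_coeff (p := p) (q := q) red he 0
  have h2 : PowerSeries.coeff 0 (gf p red G e ^ q) = Sd p red 0 G e 1 ^ q := by
    rw [PowerSeries.coeff_zero_eq_constantCoeff_apply, map_pow,
      ← PowerSeries.coeff_zero_eq_constantCoeff_apply]
    unfold Pool.Agent.U259.WD.gf
    rw [PowerSeries.coeff_mk]
  have h3 : PowerSeries.coeff 0 (gf p red G e) = Sd p red 0 G e 1 := by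
    unfold Pool.Agent.U259.WD.gf
    rw [PowerSeries.coeff_mk]
  unfold Pool.Agent.U259.WD.rhs at h
  rw [h, map_add, h2]
  congr 1
  split_ifs with hqp
  · rw [map_sub, sub_mul, map_sub, one_mul, PowerSeries.coeff_mk, mul_assoc,
      PowerSeries.coeff_C_mul, PowerSeries.coeff_zero_X_mul, mul_assoc,
      PowerSeries.coeff_C_mul, PowerSeries.coeff_zero_X_mul, if_pos (dvd_zero _), Nat.zero_div, h3]
    ring
  · rw [PowerSeries.coeff_C_mul, PowerSeries.coeff_mk, if_pos (dvd_zero _), Nat.zero_div, h3]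

/-- the difference of the two sides of the conjecture of Knörr and Robinson -/
def kr (p : ℕ) (Γ : Type) [Group Γ] : ℤ :=
  alternatingSum p Γ (fun H => (numRegularClasses p H : ℤ) - numWeights p H)

theorem kr_eq (Γ : Type) [Group Γ] [Finite Γ] :
    aB red p Γ (uno F Γ) 1 - Sd p red 0 Γ (uno F Γ) 1 = kr p Γ := by
  rw [sd0 red uno_class, ident red uno_class]
  unfold kr
  congr 1
  funext H
  rw [uno_sub, dl_uno]

theorem kr_step (q : ℕ) [hq : Fact q.Prime] {k : ℕ} (hk : 1 ≤ k) (G : Type) [Group G] [Finite G]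
    (h1 : (q : ℤ) ^ k ∣ kr p G) (h2 : (q : ℤ) ^ k ∣ kr p (Wr q G)) :
    (q : ℤ) ^ (k + 1) ∣ kr p G := by
  have : NeZero q := ⟨hq.out.ne_zero⟩
  obtain ⟨red⟩ := exists_red p (AlgebraicClosure (ZMod p))
  rw [← kr_eq red] at h1 h2 ⊢
  rw [← wrF_uno] at h2
  refine diff_arith hq.out hk (a := if q = p then -1 else (q : ℤ) ^ 2 - 1) ?_
    (tot_rec (p := p) (q := q) red uno_idem) (sd0_rec red q uno_idem) h1 h2
  split_ifs
  · exact Or.inl rfl
  · exact Or.inr rfl

/-- **The weight conjecture without blocks: congruences modulo one prime.** -/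
theorem awc_of_mod (q : ℕ) [hq : Fact q.Prime] (X : ∀ (H : Type) [Group H], Prop)
    (hX : Closed p X) (hwr : ∀ (G : Type) [Group G] [Finite G], X G → X (Wr q G))
    (h : ∀ (G : Type) [Group G] [Finite G], X G → numRegularClasses p G ≡ numWeights p G [MOD q])
    (Γ : Type) [Group Γ] [Finite Γ] (hΓ : X Γ) : numRegularClasses p Γ = numWeights p Γ := by
  have h1 : ∀ (G : Type) [Group G] [Finite G], X G → (q : ℤ) ∣ kr p G := by
    intro G _ _ hG
    have _i : Fintype (Quotient (chainSetoid p G)) := Fintype.ofFinite _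
    unfold kr alternatingSum
    rw [finsum_eq_sum_of_fintype]
    refine Finset.dvd_sum fun c _ => Dvd.dvd.mul_left ?_ _
    have h2 := Nat.modEq_iff_dvd.1 (h (chainStabilizer c.out.1) (hX.sub G hG _))
    rw [← dvd_neg, neg_sub] at h2
    exact h2
  have key : ∀ k : ℕ, ∀ (G : Type) [Group G] [Finite G], X G → (q : ℤ) ^ (k + 1) ∣ kr p G := by
    intro k
    induction k with
    | zero =>
      intro G _ _ hG
      rw [zero_add, pow_one]
      exact h1 G hG
    | succ k ih =>
      intro G _ _ hG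
      exact kr_step q (Nat.succ_le_succ (Nat.zero_le k)) G (ih G hG) (ih (Wr q G) (hwr G hG))
  have hkr : ∀ (G : Type) [Group G] [Finite G], X G → kr p G = 0 := fun G _ _ hG =>
    eq_zero_of_pow hq.out fun k => (pow_dvd_pow _ (Nat.le_succ k)).trans (key k G hG)
  refine reduction' p X hX ?_ (Nat.card Γ) Γ le_rfl
    ⟨⊤, inferInstance, hX.iso _ _ hΓ ⟨Subgroup.topEquiv.symm⟩, pgroup_top p Γ⟩
  intro H _ _ hH hR hsmall
  have h1 := hkr H hH
  unfold kr at h1
  rw [alternatingSum_single] at h1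
  · have h2 := Pool.Agent.Y63.AWC.numRegularClasses_congr (p := p)
      (Subgroup.topEquiv (G := H))
    have h3 := Pool.Agent.Y63.AWC.numWeights_congr (p := p) (Subgroup.topEquiv (G := H))
    rw [h2, h3] at h1
    have := sub_eq_zero.1 h1
    exact_mod_cast this
  · intro σ hσ hne
    have hXP : XP p X (chainStabilizer σ) :=
      (xp_closed p X hX).sub H ⟨⊤, inferInstance,
        hX.iso _ _ hH ⟨Subgroup.topEquiv.symm⟩, pgroup_top p H⟩ _
    change (numRegularClasses p (chainStabilizer σ) : ℤ) -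
      numWeights p (chainStabilizer σ) = 0
    rw [hsmall (chainStabilizer σ) hXP (stab_lt hR.radical hσ hne), sub_self]

end Pool.Agent.U259.WQ
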